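import Mathlib
import Pool.Agent.Lib_helper17.FC.Stmts

/-!
Graph half: from labels to a list of cycles.
-/

set_option autoImplicit false

namespace Pool.Agent.FC

namespace GraphHalf

open SimpleGraph

/-- A finite graph all of whose nonempty neighbourhoods have exactly two elements is the edge
disjoint union of cycles. -/
theorem exists_list {V : Type} [Fintype V] [DecidableEq V] (H : SimpleGraph V)
    (hH : H.IsCycles) :
    ∃ L : List (Σ u : V, H.Walk u u), (∀ c ∈ L, c.2.IsCycle) ∧
      ∀ x y, H.Adj x y → L.countP (fun c => decide (s(x, y) ∈ c.2.edges)) = 1 := by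
  classical
  -- components having an edge
  have hex : ∀ K : H.ConnectedComponent, (∃ v ∈ K.supp, (H.neighborSet v).Nonempty) →
      ∃ p : (Σ u : V, H.Walk u u), p.2.IsCycle ∧ p.2.toSubgraph.verts = K.supp := by
    rintro K ⟨v, hv, hn⟩
    obtain ⟨p, hp, hs⟩ := hH.exists_cycle_toSubgraph_verts_eq_connectedComponentSupp hv hn
    exact ⟨⟨v, p⟩, hp, hs⟩
  let S : Finset H.ConnectedComponent :=
    Finset.univ.filter (fun K => ∃ v ∈ K.supp, (H.neighborSet v).Nonempty)
  have hS : ∀ K : {K // K ∈ S}, ∃ p : (Σ u : V, H.Walk u u),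
      p.2.IsCycle ∧ p.2.toSubgraph.verts = K.1.supp := by
    intro K
    exact hex K.1 (Finset.mem_filter.mp K.2).2
  choose f hf1 hf2 using hS
  refine ⟨S.attach.toList.map f, ?_, ?_⟩
  · intro c hc
    obtain ⟨K, -, rfl⟩ := List.mem_map.mp hc
    exact hf1 K
  · intro x y hxy
    have hxS : H.connectedComponentMk x ∈ S := by
      refine Finset.mem_filter.mpr ⟨Finset.mem_univ _, x, rfl, y, hxy⟩
    let K0 : {K // K ∈ S} := ⟨H.connectedComponentMk x, hxS⟩
    rw [List.countP_map]
    have hiff : ∀ K : {K // K ∈ S}, (s(x, y) ∈ (f K).2.edges) ↔ K = K0 := by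
      intro K
      constructor
      · intro h
        have hx : x ∈ (f K).2.support := SimpleGraph.Walk.fst_mem_support_of_mem_edges _ h
        have hx2 : x ∈ (f K).2.toSubgraph.verts := by
          rw [Walk.mem_verts_toSubgraph]; exact hx
        rw [hf2 K] at hx2
        apply Subtype.ext
        exact hx2.symm
      · rintro rfl
        have hx2 : x ∈ (f K0).2.toSubgraph.verts := by
          rw [hf2 K0]; rfl
        have := ((hf1 K0).adj_toSubgraph_iff_of_isCycles hH hx2 y).mpr hxy
        rw [← Walk.mem_edges_toSubgraph, Subgraph.mem_edgeSet]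
        exact this
    have : S.attach.toList.countP ((fun c : (Σ u : V, H.Walk u u) =>
        decide (s(x, y) ∈ c.2.edges)) ∘ f) = S.attach.toList.countP (fun K => K == K0) := by
      apply List.countP_congr
      intro K _
      simp [hiff K]
    rw [this]
    change List.count K0 S.attach.toList = 1
    exact List.count_eq_one_of_mem (Finset.nodup_toList _)
      (Finset.mem_toList.mpr (Finset.mem_attach _ _))

end GraphHalf

open GraphHalf SimpleGraph

theorem graphHalf : GraphHalf_Stmt := by
  intro V _ _ G ρ ι C _ _ α hρ1 hρ2 hι1 hι2 hιρ hG hα hx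
  classical
  -- the set of the two labels is the same at both ends of a matching edge
  have hlab : ∀ (c : C) (x : V), (α x = c ∨ α (ρ x) = c) ↔
      (α (ι x) = c ∨ α (ρ (ι x)) = c) := by
    intro c x
    rcases hx x with ⟨h1, h2⟩ | ⟨h1, h2⟩
    · rw [h1, h2]
    · rw [h1, h2]; tauto
  have hιρ' : ∀ x y, ι x = y → ρ y ≠ x := by
    intro x y h h'
    apply hιρ y
    rw [h', ← h, hι2]
  let Hc : C → SimpleGraph V := fun c =>
    { Adj := fun x y => (y = ρ x ∧ α (ρ x) = c) ∨ (x = ρ y ∧ α x = c) ∨
        (y = ι x ∧ (α x = c ∨ α (ρ x) = c))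
      symm := ⟨by
        rintro x y (⟨rfl, h⟩ | ⟨rfl, h⟩ | ⟨rfl, h⟩)
        · exact Or.inr (Or.inl ⟨rfl, h⟩)
        · exact Or.inl ⟨rfl, h⟩
        · exact Or.inr (Or.inr ⟨(hι2 x).symm, (hlab c x).mp h⟩)⟩
      loopless := ⟨by
        rintro x (⟨h, _⟩ | ⟨h, _⟩ | ⟨h, _⟩)
        · exact hρ1 x h.symm
        · exact hρ1 x h.symm
        · exact hι1 x h.symm⟩ }
  have hle : ∀ c, Hc c ≤ G := by
    intro c x y h
    rw [hG]
    rcases h with ⟨h, _⟩ | ⟨h, _⟩ | ⟨h, _⟩
    · exact Or.inl h
    · exact Or.inr (Or.inl h)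
    · exact Or.inr (Or.inr h)
  have hcyc : ∀ c, (Hc c).IsCycles := by
    intro c v hv
    have hv' : α v = c ∨ α (ρ v) = c := by
      obtain ⟨y, hy⟩ := hv
      rcases hy with ⟨_, h⟩ | ⟨_, h⟩ | ⟨_, h⟩
      · exact Or.inr h
      · exact Or.inl h
      · exact h
    rcases hv' with h | h
    · have hne : α (ρ v) ≠ c := fun h' => hα v (h'.trans h.symm)
      have hset : (Hc c).neighborSet v = {ρ.symm v, ι v} := by
        ext y
        simp only [mem_neighborSet, Set.mem_insert_iff, Set.mem_singleton_iff]
        constructor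
        · rintro (⟨_, h'⟩ | ⟨h', _⟩ | ⟨h', _⟩)
          · exact absurd h' hne
          · left; rw [h']; simp
          · right; exact h'
        · rintro (rfl | rfl)
          · exact Or.inr (Or.inl ⟨by simp, h⟩)
          · exact Or.inr (Or.inr ⟨rfl, Or.inl h⟩)
      rw [hset, Set.ncard_pair]
      intro h'
      exact hιρ' v (ρ.symm v) h'.symm (by simp)
    · have hne : α v ≠ c := fun h' => hα v (h.trans h'.symm)
      have hset : (Hc c).neighborSet v = {ρ v, ι v} := by
        ext y
        simp only [mem_neighborSet, Set.mem_insert_iff, Set.mem_singleton_iff]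
        constructor
        · rintro (⟨h', _⟩ | ⟨_, h'⟩ | ⟨h', _⟩)
          · left; exact h'
          · exact absurd h' hne
          · right; exact h'
        · rintro (rfl | rfl)
          · exact Or.inl ⟨rfl, h⟩
          · exact Or.inr (Or.inr ⟨rfl, Or.inr h⟩)
      rw [hset, Set.ncard_pair]
      intro h'
      exact hιρ v h'.symm
  have hL := fun c => exists_list (Hc c) (hcyc c)
  choose Lc hLc1 hLc2 using hL
  let toG : ∀ c : C, (Σ u : V, (Hc c).Walk u u) → (Σ u : V, G.Walk u u) :=
    fun c p => ⟨p.1, p.2.mapLe (hle c)⟩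
  have hcount : ∀ x y, (Finset.univ.toList.flatMap (fun c => (Lc c).map (toG c))).countP
      (fun c => decide (s(x, y) ∈ c.2.edges)) =
      ∑ c : C, (if (Hc c).Adj x y then 1 else 0) := by
    intro x y
    rw [List.countP_flatMap]
    have : (List.countP (fun c : (Σ u : V, G.Walk u u) => decide (s(x, y) ∈ c.2.edges)) ∘
        fun c => (Lc c).map (toG c)) = fun c : C => (if (Hc c).Adj x y then 1 else 0) := by
      funext c
      simp only [Function.comp_apply, List.countP_map]
      have he : ∀ p : (Σ u : V, (Hc c).Walk u u),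
          ((fun c : (Σ u : V, G.Walk u u) => decide (s(x, y) ∈ c.2.edges)) ∘ toG c) p =
          decide (s(x, y) ∈ p.2.edges) := by
        intro p
        simp [toG]
      rw [List.countP_congr (fun p _ => by rw [he p])]
      by_cases h : (Hc c).Adj x y
      · rw [if_pos h]; exact hLc2 c x y h
      · rw [if_neg h]
        rw [List.countP_eq_zero]
        intro p _ hp
        apply h
        exact Walk.adj_of_mem_edges _ (of_decide_eq_true hp)
    rw [this, Finset.sum_map_toList]
  refine ⟨Finset.univ.toList.flatMap (fun c => (Lc c).map (toG c)), ?_, ?_, ?_⟩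
  · intro p hp
    obtain ⟨c, -, hp⟩ := List.mem_flatMap.mp hp
    obtain ⟨q, hq, rfl⟩ := List.mem_map.mp hp
    exact (Walk.isCycle_mapLe (hle c)).mpr (hLc1 c q hq)
  · intro x
    have := hcount x (ρ x)
    rw [show ∑ c : C, (if (Hc c).Adj x (ρ x) then 1 else 0) = 1 from ?_] at this
    · convert this
    · rw [Finset.sum_boole]
      have : (Finset.univ.filter fun c => (Hc c).Adj x (ρ x)) = {α (ρ x)} := by
        ext c
        simp only [Finset.mem_filter, Finset.mem_univ, true_and, Finset.mem_singleton]
        constructor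
        · rintro (⟨_, h⟩ | ⟨h, _⟩ | ⟨h, _⟩)
          · exact h.symm
          · exact absurd h.symm (hρ2 x)
          · exact absurd h.symm (hιρ x)
        · rintro rfl
          exact Or.inl ⟨rfl, rfl⟩
      rw [this]; simp
  · intro x
    have := hcount x (ι x)
    rw [show ∑ c : C, (if (Hc c).Adj x (ι x) then 1 else 0) = 2 from ?_] at this
    · convert this
    · rw [Finset.sum_boole]
      have : (Finset.univ.filter fun c => (Hc c).Adj x (ι x)) = {α x, α (ρ x)} := by
        ext c
        simp only [Finset.mem_filter, Finset.mem_univ, true_and, Finset.mem_insert,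
          Finset.mem_singleton]
        constructor
        · rintro (⟨h, _⟩ | ⟨h, _⟩ | ⟨_, h⟩)
          · exact absurd h (hιρ x)
          · exact absurd h.symm (hιρ' x (ι x) rfl)
          · rcases h with h | h
            · left; exact h.symm
            · right; exact h.symm
        · rintro (rfl | rfl)
          · exact Or.inr (Or.inr ⟨rfl, Or.inl rfl⟩)
          · exact Or.inr (Or.inr ⟨rfl, Or.inr rfl⟩)
      rw [this, Finset.card_pair (hα x).symm]; rfl

end Pool.Agent.FC
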