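import Mathlib
import Pool.Agent.Lib_helper17.FC.Stmts2
import Pool.Agent.Lib_helper63.FC.Graph

/-!
Graph half, general `(1,2)`-weights.
-/

set_option autoImplicit false

namespace Pool.Agent.FC

namespace GraphHalf2

open SimpleGraph

section
variable {V : Type} [Finite V] {G W : SimpleGraph V}

/-- At a vertex of `W` there is exactly one dart of weight 2. -/
lemma dart_unique (h : CubicPair G W) {v : V} (hv : (W.neighborSet v).ncard = 2)
    {s s' : MDart G W} (hs : s.1.1 = v) (hs' : s'.1.1 = v) : s = s' := by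
  obtain ⟨⟨a, b⟩, h1, h2⟩ := s
  obtain ⟨⟨a', b'⟩, h1', h2'⟩ := s'
  simp only at hs hs' h1 h2 h1' h2'
  subst hs
  subst hs'
  have hsub : W.neighborSet a' ⊆ G.neighborSet a' := fun y hy => h.1 hy
  have hc : (G.neighborSet a' \ W.neighborSet a').ncard = 1 := by
    rw [Set.ncard_sdiff hsub (Set.toFinite _), h.2.1, hv]
  obtain ⟨z, hz⟩ := Set.ncard_eq_one.mp hc
  have e1 : b ∈ G.neighborSet a' \ W.neighborSet a' := ⟨h1, h2⟩
  have e2 : b' ∈ G.neighborSet a' \ W.neighborSet a' := ⟨h1', h2'⟩
  rw [hz, Set.mem_singleton_iff] at e1 e2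
  subst e1
  subst e2
  rfl

lemma exists_dart (h : CubicPair G W) {v : V} (hv : (W.neighborSet v).ncard = 2) :
    ∃ s : MDart G W, s.1.1 = v := by
  have hsub : W.neighborSet v ⊆ G.neighborSet v := fun y hy => h.1 hy
  have hc : (G.neighborSet v \ W.neighborSet v).ncard = 1 := by
    rw [Set.ncard_sdiff hsub (Set.toFinite _), h.2.1, hv]
  obtain ⟨z, hz⟩ := Set.ncard_eq_one.mp hc
  have e : z ∈ G.neighborSet v \ W.neighborSet v := by rw [hz]; rfl
  exact ⟨⟨(v, z), e.1, e.2⟩, rfl⟩

lemma ncard_two_of_adj (h : CubicPair G W) {x y : V} (hxy : W.Adj x y) :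
    (W.neighborSet x).ncard = 2 := by
  rcases h.2.2 x with h0 | h0
  · rw [Set.ncard_eq_zero (Set.toFinite _)] at h0
    have : y ∈ W.neighborSet x := hxy
    rw [h0] at this
    exact absurd this (Set.notMem_empty y)
  · exact h0

omit [Finite V] in
lemma dart_ext {s s' : MDart G W} (h1 : s.1.1 = s'.1.1) (h2 : s.1.2 = s'.1.2) : s = s' :=
  Subtype.ext (Prod.ext h1 h2)

end

end GraphHalf2

open GraphHalf2 SimpleGraph

theorem graphHalf2 : GraphHalf2_Stmt := by
  intro V _ _ G W hCP ρ hρ C _ _ α hα hx
  classical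
  obtain ⟨hρ1, hρ2, hρ3, -⟩ := hρ
  have hlab : ∀ (c : C) (s : MDart G W), (α s = c ∨ α (ρ s) = c) ↔
      (α (rev s) = c ∨ α (ρ (rev s)) = c) := by
    intro c s
    rcases hx s with ⟨h1, h2⟩ | ⟨h1, h2⟩
    · rw [h1, h2]
    · rw [h1, h2]; tauto
  let Hc : C → SimpleGraph V := fun c =>
    { Adj := fun x y => (W.Adj x y ∧ ∃ s : MDart G W, α (ρ s) = c ∧
          ((s.1.1 = x ∧ (ρ s).1.1 = y) ∨ (s.1.1 = y ∧ (ρ s).1.1 = x))) ∨
        (∃ s : MDart G W, s.1.1 = x ∧ s.1.2 = y ∧ (α s = c ∨ α (ρ s) = c))
      symm := ⟨by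
        rintro x y (⟨h, s, hs, h'⟩ | ⟨s, rfl, rfl, h⟩)
        · exact Or.inl ⟨h.symm, s, hs, h'.symm⟩
        · exact Or.inr ⟨rev s, rfl, rfl, (hlab c s).mp h⟩⟩
      loopless := ⟨by
        rintro x (⟨h, _⟩ | ⟨s, h1, h2, _⟩)
        · exact W.loopless.irrefl x h
        · have := s.2.1
          rw [h1, h2] at this
          exact G.loopless.irrefl x this⟩ }
  have hle : ∀ c, Hc c ≤ G := by
    rintro c x y (⟨h, _⟩ | ⟨s, rfl, rfl, _⟩)
    · exact hCP.1 h
    · exact s.2.1
  -- the situation at a vertex of `W`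
  have hA : ∀ (v : V), (W.neighborSet v).ncard = 2 → ∃ (s : MDart G W), s.1.1 = v ∧
      W.neighborSet v = {(ρ s).1.1, (ρ.symm s).1.1} ∧ (ρ s).1.1 ≠ (ρ.symm s).1.1 ∧
      ∀ c y, (Hc c).Adj v y ↔ (y = (ρ s).1.1 ∧ α (ρ s) = c) ∨ (y = (ρ.symm s).1.1 ∧ α s = c) ∨
        (y = s.1.2 ∧ (α s = c ∨ α (ρ s) = c)) := by
    intro v hv
    obtain ⟨s, hs⟩ := exists_dart hCP hv
    have ha : W.Adj v (ρ s).1.1 := by
      rcases hρ3 s with h | ⟨h, _⟩
      · rwa [hs] at h
      · exact absurd (dart_unique hCP hv (h.trans hs) hs) (hρ1 s)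
    have hb : W.Adj v (ρ.symm s).1.1 := by
      rcases hρ3 (ρ.symm s) with h | ⟨h, _⟩
      · rw [Equiv.apply_symm_apply, hs] at h
        exact h.symm
      · rw [Equiv.apply_symm_apply] at h
        have := dart_unique hCP hv hs (h.symm.trans hs)
        exact absurd (by rw [Equiv.apply_symm_apply]; exact this) (hρ1 (ρ.symm s))
    have hne : (ρ s).1.1 ≠ (ρ.symm s).1.1 := by
      intro h
      have h2 := ncard_two_of_adj hCP hb.symm
      have := dart_unique hCP h2 h rfl
      apply hρ2 (ρ.symm s)
      rw [Equiv.apply_symm_apply, this]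
    refine ⟨s, hs, ?_, hne, ?_⟩
    · symm
      apply Set.eq_of_subset_of_ncard_le _ _ (Set.toFinite _)
      · rintro y (rfl | rfl)
        · exact ha
        · exact hb
      · rw [hv, Set.ncard_pair hne]
    · intro c y
      constructor
      · rintro (⟨h, s', hs', (⟨h1, h2⟩ | ⟨h1, h2⟩)⟩ | ⟨s', h1, h2, h3⟩)
        · have := dart_unique hCP hv h1 hs
          subst this
          exact Or.inl ⟨h2.symm, hs'⟩
        · have := dart_unique hCP hv h2 hs
          subst this
          right; left
          rw [Equiv.symm_apply_apply]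
          exact ⟨h1.symm, hs'⟩
        · have := dart_unique hCP hv h1 hs
          subst this
          exact Or.inr (Or.inr ⟨h2.symm, h3⟩)
      · rintro (⟨rfl, h⟩ | ⟨rfl, h⟩ | ⟨rfl, h⟩)
        · exact Or.inl ⟨ha, s, h, Or.inl ⟨hs, rfl⟩⟩
        · refine Or.inl ⟨hb, ρ.symm s, ?_, Or.inr ⟨rfl, ?_⟩⟩
          · rw [Equiv.apply_symm_apply]; exact h
          · rw [Equiv.apply_symm_apply]; exact hs
        · exact Or.inr ⟨s, hs, rfl, h⟩
  have hcyc : ∀ c, (Hc c).IsCycles := by
    intro c v hv
    rcases hCP.2.2 v with h0 | h0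
    · -- a vertex outside `W`
      rw [Set.ncard_eq_zero (Set.toFinite _)] at h0
      have hnW : ∀ y, ¬ W.Adj v y := by
        intro y hy
        have : y ∈ W.neighborSet v := hy
        rw [h0] at this
        exact this
      have hfst : ∀ s : MDart G W, s.1.1 = v → (ρ s).1.1 = v := by
        intro s hs
        rcases hρ3 s with h | ⟨h, _⟩
        · rw [hs] at h; exact absurd h (hnW _)
        · rw [h, hs]
      have h3 : ∀ s : MDart G W, s.1.1 = v → ρ (ρ (ρ s)) = s := by
        intro s hs
        rcases hρ3 s with h | ⟨_, h⟩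
        · rw [hs] at h; exact absurd h (hnW _)
        · exact h
      obtain ⟨u, hu, huc⟩ : ∃ u : MDart G W, u.1.1 = v ∧ α u = c := by
        obtain ⟨y, hy⟩ := hv
        rcases hy with ⟨h, _⟩ | ⟨s, h1, h2, h | h⟩
        · exact absurd h (hnW _)
        · exact ⟨s, h1, h⟩
        · exact ⟨ρ s, hfst s h1, h⟩
      -- the three darts
      have hu2 : (ρ (ρ u)).1.1 = v := hfst _ (hfst _ hu)
      have hall : ∀ s : MDart G W, s.1.1 = v → s = u ∨ s = ρ u ∨ s = ρ (ρ u) := by
        intro s hs
        have hset : ({u.1.2, (ρ u).1.2, (ρ (ρ u)).1.2} : Set V) = G.neighborSet v := by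
          apply Set.eq_of_subset_of_ncard_le _ _ (Set.toFinite _)
          · rintro y (rfl | rfl | rfl)
            · have := u.2.1; rw [hu] at this; exact this
            · have := (ρ u).2.1; rw [hfst _ hu] at this; exact this
            · have := (ρ (ρ u)).2.1; rw [hu2] at this; exact this
          · rw [hCP.2.1, Set.ncard_eq_three.mpr]
            refine ⟨_, _, _, ?_, ?_, ?_, rfl⟩
            · intro h
              exact hρ1 u (dart_ext (hu.trans (hfst _ hu).symm) h).symm
            · intro h
              exact hρ2 u (dart_ext (hu.trans hu2.symm) h).symm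
            · intro h
              exact hρ1 (ρ u) (dart_ext ((hfst _ hu).trans hu2.symm) h).symm
        have hmem : s.1.2 ∈ ({u.1.2, (ρ u).1.2, (ρ (ρ u)).1.2} : Set V) := by
          rw [hset]
          have := s.2.1
          rw [hs] at this
          exact this
        rcases hmem with h | h | h
        · exact Or.inl (dart_ext (hs.trans hu.symm) h)
        · exact Or.inr (Or.inl (dart_ext (hs.trans (hfst _ hu).symm) h))
        · exact Or.inr (Or.inr (dart_ext (hs.trans hu2.symm) h))
      have hset : (Hc c).neighborSet v = {u.1.2, (ρ (ρ u)).1.2} := by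
        ext y
        simp only [mem_neighborSet, Set.mem_insert_iff, Set.mem_singleton_iff]
        constructor
        · rintro (⟨h, _⟩ | ⟨s, h1, rfl, h⟩)
          · exact absurd h (hnW _)
          · rcases hall s h1 with rfl | rfl | rfl
            · exact Or.inl rfl
            · exfalso
              rcases h with h | h
              · exact hα u (h.trans huc.symm)
              · apply hα (ρ (ρ u))
                rw [h3 u hu, huc, h]
            · exact Or.inr rfl
        · rintro (rfl | rfl)
          · exact Or.inr ⟨u, hu, rfl, Or.inl huc⟩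
          · refine Or.inr ⟨ρ (ρ u), hu2, rfl, Or.inr ?_⟩
            rw [h3 u hu]; exact huc
      rw [hset, Set.ncard_pair]
      intro h
      exact hρ2 u (dart_ext (hu.trans hu2.symm) h).symm
    · -- a vertex of `W`
      obtain ⟨s, hs, hWn, hne, hadj⟩ := hA v h0
      have hy1 : s.1.2 ≠ (ρ s).1.1 := by
        intro h
        have : (ρ s).1.1 ∈ W.neighborSet v := by rw [hWn]; exact Or.inl rfl
        rw [← h] at this
        apply s.2.2
        rw [hs]; exact this
      have hy2 : s.1.2 ≠ (ρ.symm s).1.1 := by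
        intro h
        have : (ρ.symm s).1.1 ∈ W.neighborSet v := by rw [hWn]; exact Or.inr rfl
        rw [← h] at this
        apply s.2.2
        rw [hs]; exact this
      have hcase : α s = c ∨ α (ρ s) = c := by
        obtain ⟨y, hy⟩ := hv
        rcases (hadj c y).mp hy with ⟨_, h⟩ | ⟨_, h⟩ | ⟨_, h⟩
        · exact Or.inr h
        · exact Or.inl h
        · exact h
      rcases hcase with h | h
      · have hne' : α (ρ s) ≠ c := fun h' => hα s (h'.trans h.symm)
        have hset : (Hc c).neighborSet v = {(ρ.symm s).1.1, s.1.2} := by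
          ext y
          simp only [mem_neighborSet, Set.mem_insert_iff, Set.mem_singleton_iff, hadj c y]
          tauto
        rw [hset, Set.ncard_pair hy2.symm]
      · have hne' : α s ≠ c := fun h' => hα s (h.trans h'.symm)
        have hset : (Hc c).neighborSet v = {(ρ s).1.1, s.1.2} := by
          ext y
          simp only [mem_neighborSet, Set.mem_insert_iff, Set.mem_singleton_iff, hadj c y]
          tauto
        rw [hset, Set.ncard_pair hy1.symm]
  have hL := fun c => GraphHalf.exists_list (Hc c) (hcyc c)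
  choose Lc hLc1 hLc2 using hL
  let toG : ∀ c : C, (Σ u : V, (Hc c).Walk u u) → (Σ u : V, G.Walk u u) :=
    fun c p => ⟨p.1, p.2.mapLe (hle c)⟩
  have hcount : ∀ x y, (Finset.univ.toList.flatMap (fun c => (Lc c).map (toG c))).countP
      (fun c => decide (s(x, y) ∈ c.2.edges)) =
      ∑ c : C, (if (Hc c).Adj x y then 1 else 0) := by
    intro x y
    rw [List.countP_flatMap]
    have : (List.countP (fun c : (Σ u : V, G.Walk u u) => decide (s(x, y) ∈ c.2.edges)) ∘
        fun c => (Lc c).map (toG c)) = fun c : C => (if (Hc c).Adj x y then 1 else 0) := by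
      funext c
      simp only [Function.comp_apply, List.countP_map]
      have he : ∀ p : (Σ u : V, (Hc c).Walk u u),
          ((fun c : (Σ u : V, G.Walk u u) => decide (s(x, y) ∈ c.2.edges)) ∘ toG c) p =
          decide (s(x, y) ∈ p.2.edges) := by
        intro p
        simp [toG]
      rw [List.countP_congr (fun p _ => by rw [he p])]
      by_cases h : (Hc c).Adj x y
      · rw [if_pos h]; exact hLc2 c x y h
      · rw [if_neg h]
        rw [List.countP_eq_zero]
        intro p _ hp
        apply h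
        exact Walk.adj_of_mem_edges _ (of_decide_eq_true hp)
    rw [this, Finset.sum_map_toList]
  refine ⟨Finset.univ.toList.flatMap (fun c => (Lc c).map (toG c)), ?_, ?_, ?_⟩
  · intro p hp
    obtain ⟨c, -, hp⟩ := List.mem_flatMap.mp hp
    obtain ⟨q, hq, rfl⟩ := List.mem_map.mp hp
    exact (Walk.isCycle_mapLe (hle c)).mpr (hLc1 c q hq)
  · intro x y hxy
    have hc := hcount x y
    obtain ⟨s, hs, hWn, hne, hadj⟩ := hA x (ncard_two_of_adj hCP hxy)
    have hy : y ∈ W.neighborSet x := hxy
    have hys : y ≠ s.1.2 := by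
      intro h
      apply s.2.2
      rw [hs, ← h]; exact hxy
    rw [hWn] at hy
    obtain ⟨c0, hc0⟩ : ∃ c0, ∀ c, (Hc c).Adj x y ↔ c = c0 := by
      rcases hy with hy | hy
      · refine ⟨α (ρ s), fun c => ?_⟩
        rw [hadj c y]
        constructor
        · rintro (⟨_, h⟩ | ⟨h, _⟩ | ⟨h, _⟩)
          · exact h.symm
          · exact absurd (hy.symm.trans h) hne
          · exact absurd h hys
        · rintro rfl
          exact Or.inl ⟨hy, rfl⟩
      · refine ⟨α s, fun c => ?_⟩
        rw [hadj c y]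
        constructor
        · rintro (⟨h, _⟩ | ⟨_, h⟩ | ⟨h, _⟩)
          · exact absurd (h.symm.trans hy) hne
          · exact h.symm
          · exact absurd h hys
        · rintro rfl
          exact Or.inr (Or.inl ⟨hy, rfl⟩)
    rw [show ∑ c : C, (if (Hc c).Adj x y then 1 else 0) = 1 from ?_] at hc
    · convert hc
    · simp [hc0]
  · intro x y hxy hnW
    have hc := hcount x y
    let s : MDart G W := ⟨(x, y), hxy, hnW⟩
    have hadj : ∀ c, (Hc c).Adj x y ↔ (c = α s ∨ c = α (ρ s)) := by
      intro c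
      constructor
      · rintro (⟨h, _⟩ | ⟨s', h1, h2, h⟩)
        · exact absurd h hnW
        · have : s' = s := dart_ext h1 h2
          subst this
          exact h.imp Eq.symm Eq.symm
      · intro h
        exact Or.inr ⟨s, rfl, rfl, h.imp Eq.symm Eq.symm⟩
    rw [show ∑ c : C, (if (Hc c).Adj x y then 1 else 0) = 2 from ?_] at hc
    · convert hc
    · rw [Finset.sum_boole]
      have : (Finset.univ.filter fun c => (Hc c).Adj x y) = {α s, α (ρ s)} := by
        ext c
        simp [hadj c]
      rw [this, Finset.card_pair (hα s).symm]; rfl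

end Pool.Agent.FC
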