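import Mathlib
import Pool.Agent.Lib_helper17.FC.Stmts2
import Pool.Agent.Lib_helper63.FC.Graph2

/-!
Enumeration of the darts, component by component, in cyclic order.
-/

set_option autoImplicit false

namespace Pool.Agent.FC

namespace Enum

open SimpleGraph GraphHalf2

lemma rot_val {d : ℕ} (k : Fin d) : ((finRotate d k : Fin d) : ℕ) = (k.1 + 1) % d := by
  cases d with
  | zero => exact k.elim0
  | succ n =>
    rw [coe_finRotate]
    split_ifs with h
    · subst h
      simp
    · have h1 : k.1 ≠ n := fun h' => h (Fin.ext h')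
      have h2 := k.2
      rw [Nat.mod_eq_of_lt (by omega)]

lemma rot_ne {d : ℕ} (hd : 3 ≤ d) (k : Fin d) : finRotate d k ≠ k := by
  intro h
  have := congrArg Fin.val h
  rw [rot_val] at this
  have hk := k.2
  by_cases hlast : k.1 + 1 = d
  · rw [hlast, Nat.mod_self] at this
    omega
  · rw [Nat.mod_eq_of_lt (by omega)] at this
    omega

lemma rot_rot_ne {d : ℕ} (hd : 3 ≤ d) (k : Fin d) : finRotate d (finRotate d k) ≠ k := by
  intro h
  have := congrArg Fin.val h
  rw [rot_val, rot_val] at this
  have hk := k.2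
  by_cases hlast : k.1 + 1 = d
  · rw [hlast, Nat.mod_self, Nat.mod_eq_of_lt (by omega)] at this
    omega
  · rw [Nat.mod_eq_of_lt (show k.1 + 1 < d by omega)] at this
    by_cases hlast2 : k.1 + 2 = d
    · rw [hlast2, Nat.mod_self] at this
      omega
    · rw [Nat.mod_eq_of_lt (by omega)] at this
      omega

lemma rot_three (k : Fin 3) : finRotate 3 (finRotate 3 (finRotate 3 k)) = k := by
  revert k
  decide

section
variable {V : Type} [Fintype V] [DecidableEq V] {G W : SimpleGraph V}

/-- The local data at a component of `W`. -/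
def LocalData (G W : SimpleGraph V) (K : W.ConnectedComponent) (d : ℕ)
    (F : Fin d → MDart G W) : Prop :=
  3 ≤ d ∧ Function.Injective F ∧
  (∀ s, (∃ k, F k = s) ↔ W.connectedComponentMk s.1.1 = K) ∧
  (∀ k, W.Adj (F k).1.1 (F (finRotate d k)).1.1 ∨
    ((F (finRotate d k)).1.1 = (F k).1.1 ∧ d = 3)) ∧
  (∀ x y, W.connectedComponentMk x = K → W.Adj x y →
    ∃ k, ((F k).1.1 = x ∧ (F (finRotate d k)).1.1 = y) ∨
      ((F k).1.1 = y ∧ (F (finRotate d k)).1.1 = x))

omit [DecidableEq V] in
lemma isCycles (hCP : CubicPair G W) : W.IsCycles := by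
  intro v hv
  obtain ⟨y, hy⟩ := hv
  exact ncard_two_of_adj hCP hy

omit [Fintype V] [DecidableEq V] in
lemma eq_of_reachable_isolated {v w : V} (hv : ∀ y, ¬ W.Adj v y) (h : W.Reachable v w) :
    v = w := by
  obtain ⟨p⟩ := h
  cases p with
  | nil => rfl
  | cons h _ => exact absurd h (hv _)

omit [DecidableEq V] in
lemma local_data (hCP : CubicPair G W) (K : W.ConnectedComponent) :
    ∃ (d : ℕ) (F : Fin d → MDart G W), LocalData G W K d F := by
  classical
  induction K using SimpleGraph.ConnectedComponent.ind with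
  | h v =>
  rcases hCP.2.2 v with h0 | h0
  · -- isolated vertex
    rw [Set.ncard_eq_zero (Set.toFinite _)] at h0
    have hnW : ∀ y, ¬ W.Adj v y := by
      intro y hy
      have : y ∈ W.neighborSet v := hy
      rw [h0] at this
      exact this
    obtain ⟨a, b, c, hab, hac, hbc, hset⟩ := Set.ncard_eq_three.mp (hCP.2.1 v)
    have ha : G.Adj v a := by
      have : a ∈ G.neighborSet v := by rw [hset]; simp
      exact this
    have hb : G.Adj v b := by
      have : b ∈ G.neighborSet v := by rw [hset]; simp
      exact this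
    have hc : G.Adj v c := by
      have : c ∈ G.neighborSet v := by rw [hset]; simp
      exact this
    let F : Fin 3 → MDart G W :=
      ![⟨(v, a), ha, hnW a⟩, ⟨(v, b), hb, hnW b⟩, ⟨(v, c), hc, hnW c⟩]
    have hF : ∀ k, (F k).1.1 = v := by
      intro k
      fin_cases k <;> rfl
    refine ⟨3, F, le_refl 3, ?_, ?_, ?_, ?_⟩
    · intro k l hkl
      have h2 := congrArg (fun s : MDart G W => s.1.2) hkl
      fin_cases k <;> fin_cases l <;> first | rfl | (exfalso; simp [F] at h2; tauto)
    · intro s
      constructor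
      · rintro ⟨k, rfl⟩
        rw [hF k]
      · intro h
        have hs : s.1.1 = v :=
          (eq_of_reachable_isolated hnW (ConnectedComponent.exact h).symm).symm
        have hmem : s.1.2 ∈ G.neighborSet v := by
          have := s.2.1
          rw [hs] at this
          exact this
        rw [hset] at hmem
        rcases hmem with h | h | h
        · exact ⟨0, (dart_ext hs h).symm⟩
        · exact ⟨1, (dart_ext hs h).symm⟩
        · exact ⟨2, (dart_ext hs (Set.mem_singleton_iff.mp h)).symm⟩
    · intro k
      right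
      rw [hF, hF]
      exact ⟨rfl, rfl⟩
    · intro x y hx hxy
      have hs : v = x := eq_of_reachable_isolated hnW (ConnectedComponent.exact hx).symm
      subst hs
      exact absurd hxy (hnW y)
  · -- a circuit
    have hcyc := isCycles hCP
    have hne : (W.neighborSet v).Nonempty := by
      apply Set.nonempty_of_ncard_ne_zero
      rw [h0]; norm_num
    obtain ⟨p, hp, hverts⟩ := hcyc.exists_cycle_toSubgraph_verts_eq_connectedComponentSupp
      (c := W.connectedComponentMk v) (v := v) rfl hne
    have hd : 3 ≤ p.length := hp.three_le_length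
    have hdeg : ∀ k, (W.neighborSet (p.getVert k)).ncard = 2 := by
      intro k
      by_cases hk : k < p.length
      · exact ncard_two_of_adj hCP (p.adj_getVert_succ hk)
      · rw [p.getVert_of_length_le (by omega)]
        exact h0
    choose δ hδ using fun k => exists_dart hCP (hdeg k)
    let F : Fin p.length → MDart G W := fun k => δ k.1
    have hF : ∀ k, (F k).1.1 = p.getVert k.1 := fun k => hδ k.1
    have hrot : ∀ k : Fin p.length, (F (finRotate p.length k)).1.1 = p.getVert (k.1 + 1) := by
      intro k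
      rw [hF, rot_val]
      have hk := k.2
      by_cases hlast : k.1 + 1 = p.length
      · rw [hlast, Nat.mod_self, p.getVert_length, p.getVert_zero]
      · rw [Nat.mod_eq_of_lt (by omega)]
    refine ⟨p.length, F, hd, ?_, ?_, ?_, ?_⟩
    · intro k l hkl
      have h1 := congrArg (fun s : MDart G W => s.1.1) hkl
      simp only [hF] at h1
      have hk := k.2
      have hl := l.2
      have := hp.getVert_injOn' (show k.1 ≤ p.length - 1 by omega)
        (show l.1 ≤ p.length - 1 by omega) h1
      exact Fin.ext this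
    · intro s
      constructor
      · rintro ⟨k, rfl⟩
        rw [hF k]
        have : p.getVert k.1 ∈ p.toSubgraph.verts := by
          rw [Walk.mem_verts_toSubgraph]
          exact p.getVert_mem_support _
        rw [hverts] at this
        exact this
      · intro h
        have : s.1.1 ∈ p.toSubgraph.verts := by
          rw [hverts]; exact h
        rw [Walk.mem_verts_toSubgraph, Walk.mem_support_iff_exists_getVert] at this
        obtain ⟨i, hi, hil⟩ := this
        by_cases hlast : i = p.length
        · refine ⟨⟨0, by omega⟩, ?_⟩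
          apply dart_unique hCP (hdeg 0) (hF _)
          rw [← hi, hlast, p.getVert_length, p.getVert_zero]
        · refine ⟨⟨i, by omega⟩, ?_⟩
          exact dart_unique hCP (hdeg i) (hF _) hi.symm
    · intro k
      left
      rw [hF, hrot]
      exact p.adj_getVert_succ k.2
    · intro x y hx hxy
      have hxv : x ∈ p.toSubgraph.verts := by
        rw [hverts]; exact hx
      have hadj := (hp.adj_toSubgraph_iff_of_isCycles hcyc hxv y).mpr hxy
      rw [Walk.toSubgraph_adj_iff] at hadj
      obtain ⟨i, hi, hil⟩ := hadj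
      refine ⟨⟨i, hil⟩, ?_⟩
      rw [hF, hrot]
      rcases Sym2.eq_iff.mp hi with ⟨h1, h2⟩ | ⟨h1, h2⟩
      · exact Or.inl ⟨h1, h2⟩
      · exact Or.inr ⟨h1, h2⟩

end

end Enum

open Enum GraphHalf2 SimpleGraph

theorem enum : Enum_Stmt := by
  intro V _ _ G W hCP
  classical
  choose d0 F0 hF0 using fun K : W.ConnectedComponent => local_data hCP K
  let c : W.ConnectedComponent ≃ Fin (Fintype.card W.ConnectedComponent) :=
    Fintype.equivFin _
  let d : Fin (Fintype.card W.ConnectedComponent) → ℕ := fun i => d0 (c.symm i)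
  let f : (Σ i, Fin (d i)) → MDart G W := fun p => F0 (c.symm p.1) p.2
  have hcomp : ∀ p, W.connectedComponentMk (f p).1.1 = c.symm p.1 := fun p =>
    ((hF0 (c.symm p.1)).2.2.1 (f p)).mp ⟨p.2, rfl⟩
  have hbij : Function.Bijective f := by
    constructor
    · rintro ⟨i, k⟩ ⟨j, l⟩ h
      have hij : i = j := by
        apply c.symm.injective
        rw [← hcomp ⟨i, k⟩, ← hcomp ⟨j, l⟩, h]
      subst hij
      have : k = l := (hF0 (c.symm i)).2.1 h
      rw [this]
    · intro s
      obtain ⟨k, hk⟩ := ((hF0 (W.connectedComponentMk s.1.1)).2.2.1 s).mpr rfl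
      have : ∀ K : W.ConnectedComponent, ∀ k : Fin (d0 K), F0 K k = s → ∃ p, f p = s := by
        intro K k hk
        obtain ⟨i, rfl⟩ := c.symm.surjective K
        exact ⟨⟨i, k⟩, hk⟩
      exact this _ k hk
  let e : (Σ i, Fin (d i)) ≃ MDart G W := Equiv.ofBijective f hbij
  have he : ∀ i (k : Fin (d i)), e ⟨i, k⟩ = F0 (c.symm i) k := fun i k => rfl
  have hρ : ∀ i (k : Fin (d i)), (e.symm.trans ((rotAll d).trans e)) (e ⟨i, k⟩) =
      e ⟨i, finRotate (d i) k⟩ := by
    intro i k
    simp [rotAll]
  refine ⟨_, d, e, ⟨?_, ?_, ?_, ?_⟩, ?_⟩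
  · intro s
    obtain ⟨⟨i, k⟩, rfl⟩ := e.surjective s
    rw [hρ]
    intro h
    have := e.injective h
    simp only [Sigma.mk.injEq, heq_eq_eq, true_and] at this
    exact rot_ne (hF0 (c.symm i)).1 k this
  · intro s
    obtain ⟨⟨i, k⟩, rfl⟩ := e.surjective s
    rw [hρ, hρ]
    intro h
    have := e.injective h
    simp only [Sigma.mk.injEq, heq_eq_eq, true_and] at this
    exact rot_rot_ne (hF0 (c.symm i)).1 k this
  · intro s
    obtain ⟨⟨i, k⟩, rfl⟩ := e.surjective s
    rw [hρ, hρ, hρ]
    rcases (hF0 (c.symm i)).2.2.2.1 k with h | ⟨h1, h2⟩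
    · exact Or.inl h
    · refine Or.inr ⟨h1, ?_⟩
      have h3 : ∀ n (k : Fin n), n = 3 → finRotate n (finRotate n (finRotate n k)) = k := by
        rintro n k rfl
        exact rot_three k
      rw [h3 _ k h2]
  · intro x y hxy
    obtain ⟨k, hk⟩ := (hF0 (c.symm (c (W.connectedComponentMk x)))).2.2.2.2 x y
      (by simp) hxy
    refine ⟨e ⟨c (W.connectedComponentMk x), k⟩, ?_⟩
    rw [hρ]
    exact hk
  · intro s s'
    obtain ⟨⟨i, k⟩, rfl⟩ := e.surjective s
    obtain ⟨⟨j, l⟩, rfl⟩ := e.surjective s'
    rw [Equiv.symm_apply_apply, Equiv.symm_apply_apply, ← ConnectedComponent.eq]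
    have h1 : W.connectedComponentMk (e ⟨i, k⟩).1.1 = c.symm i := hcomp ⟨i, k⟩
    have h2 : W.connectedComponentMk (e ⟨j, l⟩).1.1 = c.symm j := hcomp ⟨j, l⟩
    rw [h1, h2]
    exact c.symm.injective.eq_iff.symm

end Pool.Agent.FC
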