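import Mathlib
import Pool.Agent.Lib_helper17.FC.Stmts3
import Pool.Agent.Lib_helper63.FC.Graph2
import Pool.Agent.Lib_helper63.FC.Enum

/-!
Minimal contra pairs are permutation graphs.
-/

set_option autoImplicit false

namespace Pool.Agent.FC

namespace Reduction

open SimpleGraph GraphHalf2

/-- Colouring of a graph in which every walk from `X` to `Y` passes through every vertex. -/
lemma path_struct {ι : Type} (J : SimpleGraph ι) (X Y : ι → Prop)
    (hex : ∃ i j, X i ∧ Y j ∧ J.Reachable i j)
    (hall : ∀ i j, X i → Y j → ∀ p : J.Walk i j, ∀ k, k ∈ p.support) :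
    ∃ col : ι → ZMod 2, (∀ i j, J.Adj i j → col i = col j + 1) ∧
      (∀ i j, X i → X j → i = j) ∧ (∀ i j, Y i → Y j → i = j) := by
  classical
  have hex' : ∃ n : ℕ, ∃ i j, X i ∧ Y j ∧ J.Reachable i j ∧ J.dist i j = n := by
    obtain ⟨i, j, h1, h2, h3⟩ := hex
    exact ⟨_, i, j, h1, h2, h3, rfl⟩
  obtain ⟨i0, j0, hX, hY, hr, hD⟩ := Nat.find_spec hex'
  have hmin : ∀ i j, X i → Y j → J.Reachable i j → J.dist i0 j0 ≤ J.dist i j := by
    intro i j h1 h2 h3
    rw [hD]
    exact Nat.find_min' hex' ⟨i, j, h1, h2, h3, rfl⟩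
  obtain ⟨p, hp⟩ := hr.exists_walk_length_eq_dist
  have hsup := hall i0 j0 hX hY p
  have key : ∀ k, J.dist i0 k + J.dist k j0 = J.dist i0 j0 ∧ J.Reachable i0 k ∧
      J.Reachable k j0 ∧ p.getVert (J.dist i0 k) = k := by
    intro k
    have hk := hsup k
    have h1 := congrArg Walk.length (p.take_spec hk)
    rw [Walk.length_append, hp] at h1
    have h2 : J.dist i0 k ≤ (p.takeUntil k hk).length := dist_le _
    have h3 : J.dist k j0 ≤ (p.dropUntil k hk).length := dist_le _
    have r1 : J.Reachable i0 k := ⟨p.takeUntil k hk⟩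
    have r2 : J.Reachable k j0 := ⟨p.dropUntil k hk⟩
    have h4 : J.dist i0 j0 ≤ J.dist i0 k + J.dist k j0 := r1.dist_triangle_left j0
    have h5 : J.dist i0 k = (p.takeUntil k hk).length := by omega
    refine ⟨by omega, r1, r2, ?_⟩
    rw [h5]
    exact Walk.getVert_length_takeUntil hk
  have hinj : ∀ k l, J.dist i0 k = J.dist i0 l → k = l := by
    intro k l h
    rw [← (key k).2.2.2, ← (key l).2.2.2, h]
  refine ⟨fun k => (J.dist i0 k : ZMod 2), ?_, ?_, ?_⟩
  · intro i j hij
    have hne : J.dist i0 i ≠ J.dist i0 j := fun h => hij.ne (hinj i j h)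
    rcases hij.symm.diff_dist_adj (u := i0) with h | h | h
    · exact absurd h hne
    · show (J.dist i0 i : ZMod 2) = (J.dist i0 j : ZMod 2) + 1
      rw [h]
      push_cast
      ring
    · have h2 : J.dist i0 j = J.dist i0 i + 1 := by omega
      show (J.dist i0 i : ZMod 2) = (J.dist i0 j : ZMod 2) + 1
      rw [h2]
      push_cast
      rw [add_assoc]
      have : (1 : ZMod 2) + 1 = 0 := by decide
      rw [this, add_zero]
  · have h0 : ∀ k, X k → k = i0 := by
      intro k hk
      have h1 := hmin k j0 hk hY (key k).2.2.1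
      have h2 := (key k).1
      apply hinj
      rw [dist_self]
      omega
    intro i j hi hj
    rw [h0 i hi, h0 j hj]
  · have h0 : ∀ k, Y k → k = j0 := by
      intro k hk
      have h1 := hmin i0 k hX hk (key k).2.1
      have h2 := (key k).1
      have h3 := (key k).2.2.1
      exact (h3.dist_eq_zero_iff).mp (by omega)
    intro i j hi hj
    rw [h0 i hi, h0 j hj]

/-- Counting in a list by indices. -/
lemma countP_eq_card {α : Type*} (p : α → Bool) (L : List α) :
    L.countP p =
      ((Finset.univ : Finset (Fin L.length)).filter (fun i => p (L.get i) = true)).card := by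
  conv_lhs => rw [← List.map_get_finRange L]
  rw [List.countP_map, List.countP_eq_length_filter,
    ← List.toFinset_card_of_nodup ((List.nodup_finRange _).filter _)]
  congr 1
  ext i
  simp

lemma exists_unique_index {α : Type*} {p : α → Bool} {L : List α} (h : L.countP p = 1) :
    ∃ i : Fin L.length, p (L.get i) = true ∧ ∀ j, p (L.get j) = true → j = i := by
  rw [countP_eq_card, Finset.card_eq_one] at h
  obtain ⟨i, hi⟩ := h
  refine ⟨i, ?_, ?_⟩
  · have : i ∈ ({i} : Finset (Fin L.length)) := Finset.mem_singleton_self i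
    rw [← hi, Finset.mem_filter] at this
    exact this.2
  · intro j hj
    have : j ∈ (Finset.univ : Finset (Fin L.length)).filter (fun i => p (L.get i) = true) :=
      Finset.mem_filter.mpr ⟨Finset.mem_univ _, hj⟩
    rw [hi, Finset.mem_singleton] at this
    exact this

lemma exists_two_indices {α : Type*} {p : α → Bool} {L : List α} (h : L.countP p = 2) :
    ∃ i j : Fin L.length, i ≠ j ∧ p (L.get i) = true ∧ p (L.get j) = true := by
  rw [countP_eq_card, Finset.card_eq_two] at h
  obtain ⟨i, j, hij, hi⟩ := h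
  refine ⟨i, j, hij, ?_, ?_⟩
  · have : i ∈ ({i, j} : Finset (Fin L.length)) := by simp
    rw [← hi, Finset.mem_filter] at this
    exact this.2
  · have : j ∈ ({i, j} : Finset (Fin L.length)) := by simp
    rw [← hi, Finset.mem_filter] at this
    exact this.2

section
variable {V : Type} [Fintype V] [DecidableEq V] {G W : SimpleGraph V}

omit [Fintype V] in
/-- The cover of `G - s(x,y)` as a family of cycles. -/
lemma exists_fam (hM : MinContra G W) {x y : V} (hxy : G.Adj x y) (hW : ¬ W.Adj x y) :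
    ∃ (n : ℕ) (u : Fin n → V) (c : ∀ i, (G.deleteEdges {s(x, y)}).Walk (u i) (u i)),
      (∀ i, (c i).IsCycle) ∧
      (∀ e, e ∈ W.edgeSet → ∃ i, e ∈ (c i).edges ∧ ∀ j, e ∈ (c j).edges → j = i) ∧
      (∀ e, e ∈ G.edgeSet → e ∉ W.edgeSet → e ≠ s(x, y) →
        ∃ i j, i ≠ j ∧ e ∈ (c i).edges ∧ e ∈ (c j).edges) := by
  obtain ⟨-, -, -, -, hcov⟩ := hM
  obtain ⟨L, h1, h2, h3⟩ := hcov s(x, y) hxy hW
  refine ⟨L.length, fun i => (L.get i).1, fun i => (L.get i).2, fun i => h1 _ (L.get_mem i),
    ?_, ?_⟩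
  · intro e
    induction e with | h a b => ?_
    intro he
    obtain ⟨i, hi, hi'⟩ := exists_unique_index (h2 a b he)
    exact ⟨i, of_decide_eq_true hi, fun j hj => hi' j (decide_eq_true hj)⟩
  · intro e
    induction e with | h a b => ?_
    intro he hnW hne
    obtain ⟨i, j, hij, hi, hj⟩ := exists_two_indices (h3 a b
      (by rw [deleteEdges_adj]; exact ⟨he, hne⟩) hnW)
    exact ⟨i, j, hij, of_decide_eq_true hi, of_decide_eq_true hj⟩

omit [Fintype V] [DecidableEq V] in
/-- A cycle through `v` has a second edge at `v`. -/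
lemma second_edge {H : SimpleGraph V} {u v m : V} {c : H.Walk u u} (hc : c.IsCycle)
    (h : s(v, m) ∈ c.edges) : ∃ z, z ≠ m ∧ s(v, z) ∈ c.edges := by
  classical
  have hv : v ∈ c.support := Walk.fst_mem_support_of_mem_edges c h
  have h2 := hc.ncard_neighborSet_toSubgraph_eq_two hv
  obtain ⟨a, b, hab, hset⟩ := Set.ncard_eq_two.mp h2
  have hmem : ∀ z, z ∈ c.toSubgraph.neighborSet v ↔ s(v, z) ∈ c.edges := by
    intro z
    rw [Subgraph.mem_neighborSet, ← Subgraph.mem_edgeSet, Walk.mem_edges_toSubgraph]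
  have ha : s(v, a) ∈ c.edges := by rw [← hmem, hset]; simp
  have hb : s(v, b) ∈ c.edges := by rw [← hmem, hset]; simp
  by_cases ham : a = m
  · exact ⟨b, fun h => hab (ham.trans h.symm), hb⟩
  · exact ⟨a, ham, ha⟩

lemma kappa (hM : MinContra G W) {x y : V} (hxy : G.Adj x y) (hW : ¬ W.Adj x y) :
    ∃ κ : Sym2 V → ZMod 2,
      (∀ v a b, a ≠ b → W.Adj v a → W.Adj v b →
        κ s(v, b) = κ s(v, a) + (if v = x ∨ v = y then 0 else 1)) ∧
      (∀ z, G.Adj x z → z ≠ y → W.Adj x z) := by
  classical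
  obtain ⟨n, u, c, hc, h1, h2⟩ := exists_fam hM hxy hW
  obtain ⟨hCP, hBr, -, hRem, -⟩ := hM
  -- the graphs without a circuit
  let S : Fin n → Set (Sym2 V) := fun k => {e | e ∈ (c k).edges ∧ e ∈ W.edgeSet}
  let H : Fin n → SimpleGraph V := fun k => (G.deleteEdges {s(x, y)}).deleteEdges (S k)
  have hedgeG : ∀ k e, e ∈ (c k).edges → e ∈ G.edgeSet ∧ e ≠ s(x, y) := by
    intro k e he
    have := (c k).edges_subset_edgeSet he
    rw [edgeSet_deleteEdges] at this
    exact ⟨this.1, fun h => this.2 h⟩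
  have hsep : ∀ k l, l ≠ k → ∀ e, e ∈ (c l).edges → e ∉ S k := by
    rintro k l hlk e he ⟨he1, he2⟩
    obtain ⟨i, hi, hi'⟩ := h1 e he2
    exact hlk ((hi' l he).trans (hi' k he1).symm)
  have hA : ∀ k, ¬ (H k).Reachable x y := by
    intro k hreach
    have hcyc : ((c k).mapLe (deleteEdges_le {s(x, y)})).IsCycle := (hc k).mapLe _
    have hnr := hRem _ _ hcyc
    apply hnr
    have hedges : ((c k).mapLe (deleteEdges_le {s(x, y)})).edges = (c k).edges := by
      simp
    show Bridgeless (G.deleteEdges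
      {e | e ∈ ((c k).mapLe (deleteEdges_le {s(x, y)})).edges ∧ e ∈ W.edgeSet})
    rw [hedges]
    intro e he hbr
    rw [edgeSet_deleteEdges] at he
    obtain ⟨heG, heS⟩ := he
    by_cases hexy : e = s(x, y)
    · subst hexy
      rw [isBridge_iff] at hbr
      apply hbr
      have : (G.deleteEdges (S k)).deleteEdges {s(x, y)} = H k := by
        show _ = (G.deleteEdges {s(x, y)}).deleteEdges (S k)
        rw [deleteEdges_deleteEdges, deleteEdges_deleteEdges, Set.union_comm]
      rw [show {e | e ∈ (c k).edges ∧ e ∈ W.edgeSet} = S k from rfl, this]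
      exact hreach
    · have hj : ∃ j, j ≠ k ∧ e ∈ (c j).edges := by
        by_cases heW : e ∈ W.edgeSet
        · obtain ⟨i, hi, hi'⟩ := h1 e heW
          refine ⟨i, ?_, hi⟩
          rintro rfl
          exact heS ⟨hi, heW⟩
        · obtain ⟨i, j, hij, hi, hj⟩ := h2 e heG heW hexy
          by_cases hik : i = k
          · subst hik
            exact ⟨j, fun h => hij h.symm, hj⟩
          · exact ⟨i, hik, hi⟩
      obtain ⟨j, hjk, hej⟩ := hj
      have htr : ∀ e' ∈ (c j).edges, e' ∈ (G.deleteEdges (S k)).edgeSet := by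
        intro e' he'
        rw [edgeSet_deleteEdges]
        exact ⟨(hedgeG j e' he').1, hsep k j hjk e' he'⟩
      have hcyc2 : ((c j).transfer (G.deleteEdges (S k)) htr).IsCycle := (hc j).transfer _
      apply hbr.notMem_edges_of_isCycle hcyc2
      rw [Walk.edges_transfer]
      exact hej
  have hB : ∀ k l, l ≠ k → ∀ a b, a ∈ (c l).support → b ∈ (c l).support →
      (H k).Reachable a b := by
    intro k l hlk a b ha hb
    have htr : ∀ e' ∈ (c l).edges, e' ∈ (H k).edgeSet := by
      intro e' he'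
      show e' ∈ ((G.deleteEdges {s(x, y)}).deleteEdges (S k)).edgeSet
      rw [edgeSet_deleteEdges]
      exact ⟨(c l).edges_subset_edgeSet he', hsep k l hlk e' he'⟩
    have hs : ∀ a, a ∈ (c l).support → (H k).Reachable (u l) a := by
      intro a ha
      have ha' : a ∈ ((c l).transfer (H k) htr).support := by
        rw [Walk.support_transfer]; exact ha
      exact ⟨((c l).transfer (H k) htr).takeUntil a ha'⟩
    exact (hs a ha).symm.trans (hs b hb)
  let J : SimpleGraph (Fin n) :=
    { Adj := fun i j => i ≠ j ∧ ∃ v, v ∈ (c i).support ∧ v ∈ (c j).support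
      symm := ⟨by
        rintro i j ⟨h, v, h1, h2⟩
        exact ⟨h.symm, v, h2, h1⟩⟩
      loopless := ⟨fun i h => h.1 rfl⟩ }
  have hC : ∀ k i j (p : J.Walk i j), k ∉ p.support → ∀ a b, a ∈ (c i).support →
      b ∈ (c j).support → (H k).Reachable a b := by
    intro k i j p
    induction p with
    | nil =>
      intro hk a b ha hb
      rw [Walk.support_nil, List.mem_singleton] at hk
      exact hB k _ (fun h => hk h.symm) a b ha hb
    | cons h p ih =>
      intro hk a b ha hb
      rw [Walk.support_cons, List.mem_cons, not_or] at hk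
      obtain ⟨-, v, hv1, hv2⟩ := h
      exact (hB k _ (fun h => hk.1 h.symm) a v ha hv1).trans (ih hk.2 v b hv2 hb)
  have hD : ∀ a b (p : (G.deleteEdges {s(x, y)}).Walk a b) (i : Fin n), a ∈ (c i).support →
      ∃ j, b ∈ (c j).support ∧ J.Reachable i j := by
    intro a b p
    induction p with
    | nil => exact fun i ha => ⟨i, ha, Reachable.refl i⟩
    | @cons a w b h p ih =>
      intro i ha
      rw [deleteEdges_adj] at h
      have hl : ∃ l, s(a, w) ∈ (c l).edges := by
        by_cases haw : s(a, w) ∈ W.edgeSet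
        · obtain ⟨l, hl, -⟩ := h1 _ haw
          exact ⟨l, hl⟩
        · obtain ⟨l, -, -, hl, -⟩ := h2 _ h.1 haw h.2
          exact ⟨l, hl⟩
      obtain ⟨l, hl⟩ := hl
      have hal : a ∈ (c l).support := Walk.fst_mem_support_of_mem_edges _ hl
      have hwl : w ∈ (c l).support := Walk.snd_mem_support_of_mem_edges _ hl
      obtain ⟨j, hj, hr⟩ := ih l hwl
      refine ⟨j, hj, ?_⟩
      by_cases hil : i = l
      · rw [hil]; exact hr
      · have : J.Adj i l := ⟨hil, a, ha, hal⟩
        exact this.reachable.trans hr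
  have hreach : (G.deleteEdges {s(x, y)}).Reachable x y := by
    have := hBr s(x, y) hxy
    rw [isBridge_iff, not_not] at this
    exact this
  have hex : ∃ i j, x ∈ (c i).support ∧ y ∈ (c j).support ∧ J.Reachable i j := by
    obtain ⟨p⟩ := hreach
    have hx : ∃ i, x ∈ (c i).support := by
      cases p with
      | nil => exact absurd rfl hxy.ne
      | @cons _ w _ h p =>
        rw [deleteEdges_adj] at h
        by_cases haw : s(x, w) ∈ W.edgeSet
        · obtain ⟨l, hl, -⟩ := h1 _ haw
          exact ⟨l, Walk.fst_mem_support_of_mem_edges _ hl⟩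
        · obtain ⟨l, -, -, hl, -⟩ := h2 _ h.1 haw h.2
          exact ⟨l, Walk.fst_mem_support_of_mem_edges _ hl⟩
    obtain ⟨i, hi⟩ := hx
    obtain ⟨j, hj, hr⟩ := hD x y p i hi
    exact ⟨i, j, hi, hj, hr⟩
  obtain ⟨col, hcol, hX, hY⟩ := path_struct J (fun i => x ∈ (c i).support)
    (fun i => y ∈ (c i).support) hex (by
      intro i j hi hj p k
      by_contra hk
      exact hA k (hC k i j p hk x y hi hj))
  choose idx hidx1 hidx2 using h1
  refine ⟨fun e => if h : e ∈ W.edgeSet then col (idx e h) else 0, ?_, ?_⟩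
  · intro v a b hab ha hb
    have ha' : s(v, a) ∈ W.edgeSet := ha
    have hb' : s(v, b) ∈ W.edgeSet := hb
    show (if h : s(v, b) ∈ W.edgeSet then col (idx _ h) else 0) =
      (if h : s(v, a) ∈ W.edgeSet then col (idx _ h) else 0) + _
    rw [dif_pos ha', dif_pos hb']
    have hva : v ∈ (c (idx _ ha')).support := Walk.fst_mem_support_of_mem_edges _ (hidx1 _ ha')
    have hvb : v ∈ (c (idx _ hb')).support := Walk.fst_mem_support_of_mem_edges _ (hidx1 _ hb')
    by_cases hvx : v = x
    · subst hvx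
      rw [if_pos (Or.inl rfl), add_zero, hX _ _ hvb hva]
    by_cases hvy : v = y
    · subst hvy
      rw [if_pos (Or.inr rfl), add_zero, hY _ _ hvb hva]
    rw [if_neg (by tauto)]
    -- the third edge at `v`
    have hWv : W.neighborSet v = {a, b} := by
      have hc2 := ncard_two_of_adj hCP ha
      symm
      apply Set.eq_of_subset_of_ncard_le
      · rintro z (rfl | rfl)
        · exact ha
        · exact hb
      · rw [hc2, Set.ncard_pair hab]
      · exact Set.toFinite _
    obtain ⟨s0, hs0⟩ := exists_dart hCP (ncard_two_of_adj hCP ha)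
    obtain ⟨⟨v', m⟩, hm1, hm2⟩ := s0
    simp only at hs0 hm1 hm2
    subst hs0
    obtain ⟨i, j, hij, hi, hj⟩ := h2 s(v', m) hm1 hm2 (by
      intro h
      rw [Sym2.eq_iff] at h
      rcases h with ⟨h, -⟩ | ⟨h, -⟩
      · exact hvx h
      · exact hvy h)
    have hcl : ∀ i, s(v', m) ∈ (c i).edges → i = idx _ ha' ∨ i = idx _ hb' := by
      intro i hi
      obtain ⟨z, hzm, hz⟩ := second_edge (hc i) hi
      have hzG := (hedgeG i _ hz).1
      have hzW : W.Adj v' z := by
        by_contra hzW
        have := dart_unique hCP (ncard_two_of_adj hCP ha) (s := ⟨(v', z), hzG, hzW⟩)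
          (s' := ⟨(v', m), hm1, hm2⟩) rfl rfl
        apply hzm
        exact congrArg (fun s : MDart G W => s.1.2) this
      have : z ∈ W.neighborSet v' := hzW
      rw [hWv] at this
      rcases this with rfl | rfl
      · exact Or.inl (hidx2 _ ha' i hz)
      · exact Or.inr (hidx2 _ hb' i hz)
    have hne : idx _ hb' ≠ idx _ ha' := by
      intro h
      rcases hcl i hi with h1 | h1 <;> rcases hcl j hj with h2 | h2 <;>
        apply hij <;> rw [h1, h2] <;> first | rfl | exact h | exact h.symm
    exact hcol _ _ ⟨hne, v', hvb, hva⟩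
  · intro z hz hzy
    by_contra hnW
    obtain ⟨i, j, hij, hi, hj⟩ := h2 s(x, z) hz hnW (by
      intro h
      rw [Sym2.eq_iff] at h
      rcases h with ⟨-, h⟩ | ⟨h, -⟩
      · exact hzy h
      · exact hxy.ne h)
    exact hij (hX i j (Walk.fst_mem_support_of_mem_edges _ hi)
      (Walk.fst_mem_support_of_mem_edges _ hj))


/-- Every vertex is in `W`. -/
lemma all_two (hM : MinContra G W) (v : V) : (W.neighborSet v).ncard = 2 := by
  rcases hM.1.2.2 v with h0 | h0
  swap
  · exact h0
  exfalso
  have hCP := hM.1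
  rw [Set.ncard_eq_zero (Set.toFinite _)] at h0
  have h3 := hCP.2.1 v
  obtain ⟨a, b, c, hab, -, -, hset⟩ := Set.ncard_eq_three.mp h3
  have ha : G.Adj v a := by
    have : a ∈ G.neighborSet v := by rw [hset]; simp
    exact this
  have hb : G.Adj v b := by
    have : b ∈ G.neighborSet v := by rw [hset]; simp
    exact this
  have hnW : ∀ z, ¬ W.Adj v z := by
    intro z hz
    have : z ∈ W.neighborSet v := hz
    rw [h0] at this
    exact this
  obtain ⟨κ, -, h2⟩ := kappa hM ha (hnW a)
  exact hnW b (h2 b hb hab.symm)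

lemma exists_partner (hM : MinContra G W) (v : V) : ∃ m, G.Adj v m ∧ ¬ W.Adj v m := by
  obtain ⟨⟨⟨v', m⟩, h1, h2⟩, h⟩ := exists_dart hM.1 (all_two hM v)
  simp only at h h1 h2
  subst h
  exact ⟨m, h1, h2⟩

end

lemma two_labels : ∀ a b c d : ZMod 2, b ≠ a → d ≠ c → (a = c ∧ b = d) ∨ (a = d ∧ b = c) := by
  decide

lemma natMod_cast {d : ℕ} (hd : (d : ZMod 2) = 0) (k : ℕ) : ((k % d : ℕ) : ZMod 2) = k := by
  conv_rhs => rw [← Nat.mod_add_div k d]
  push_cast
  rw [hd, zero_mul, add_zero]

end Reduction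

open Reduction GraphHalf2 SimpleGraph

theorem reduction : Reduction_Stmt := by
  intro V _ _ G W hM
  classical
  have hCP := hM.1
  have hall := all_two hM
  obtain ⟨t, d, e, hrot, hcomp⟩ := enum V G W hCP
  obtain ⟨hρ1, hρ2, hρ3, hρ4⟩ := id hrot
  have hex : ∀ v : V, ∃ s : MDart G W, s.1.1 = v := fun v => exists_dart hCP (hall v)
  choose dart hdart using hex
  have huniq : ∀ (s : MDart G W) (v : V), s.1.1 = v ↔ s = dart v := by
    intro s v
    constructor
    · intro h
      exact dart_unique hCP (hall v) h (hdart v)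
    · rintro rfl
      exact hdart v
  have hstep : ∀ q, (e.symm.trans ((rotAll d).trans e)) (e q) = e (rotAll d q) := by
    intro q
    simp
  have hadj : ∀ q, W.Adj (e q).1.1 (e (rotAll d q)).1.1 := by
    intro q
    have h := hρ3 (e q)
    rw [hstep] at h
    rcases h with h | ⟨h, -⟩
    · exact h
    · exfalso
      apply hρ1 (e q)
      rw [hstep]
      exact dart_unique hCP (hall _) h rfl
  have hne2 : ∀ q, (e q).1.1 ≠ (e (rotAll d (rotAll d q))).1.1 := by
    intro q h
    apply hρ2 (e q)
    rw [hstep, hstep]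
    exact dart_unique hCP (hall _) h.symm rfl
  -- parity
  have hpar : ∀ x y, G.Adj x y → ¬ W.Adj x y → ∀ i : Fin t,
      (d i : ZMod 2) = (if (e.symm (dart x)).1 = i then 1 else 0) +
        (if (e.symm (dart y)).1 = i then 1 else 0) := by
    intro x y hxy hW i
    obtain ⟨κ, hκ, -⟩ := kappa hM hxy hW
    let f : Fin (d i) → ZMod 2 := fun k =>
      κ s((e ⟨i, k⟩).1.1, (e (rotAll d ⟨i, k⟩)).1.1)
    let g : Fin (d i) → ZMod 2 := fun k =>
      if (e ⟨i, k⟩).1.1 = x ∨ (e ⟨i, k⟩).1.1 = y then 0 else 1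
    have hf : ∀ k, f (finRotate (d i) k) = f k + g (finRotate (d i) k) := by
      intro k
      have hr : (⟨i, finRotate (d i) k⟩ : Σ i : Fin t, Fin (d i)) = rotAll d ⟨i, k⟩ := rfl
      show κ s((e ⟨i, finRotate (d i) k⟩).1.1, (e (rotAll d ⟨i, finRotate (d i) k⟩)).1.1) =
        κ s((e ⟨i, k⟩).1.1, (e (rotAll d ⟨i, k⟩)).1.1) +
        (if (e ⟨i, finRotate (d i) k⟩).1.1 = x ∨ (e ⟨i, finRotate (d i) k⟩).1.1 = y
          then 0 else 1)
      rw [hr]
      have h1 := hadj ⟨i, k⟩
      have h2 := hadj (rotAll d ⟨i, k⟩)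
      have h3 := hκ _ _ _ (hne2 ⟨i, k⟩) h1.symm h2
      rw [h3, Sym2.eq_swap]
    have hs1 : ∑ k, f (finRotate (d i) k) = ∑ k, f k := Equiv.sum_comp (finRotate (d i)) f
    have hs2 : ∑ k, g (finRotate (d i) k) = ∑ k, g k := Equiv.sum_comp (finRotate (d i)) g
    have hs3 : ∑ k, f (finRotate (d i) k) = ∑ k, f k + ∑ k, g (finRotate (d i) k) := by
      rw [← Finset.sum_add_distrib]
      exact Finset.sum_congr rfl (fun k _ => hf k)
    rw [hs1, hs2] at hs3
    have hg0 : ∑ k, g k = 0 := by
      have := hs3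
      rwa [left_eq_add] at this
    have hsum : ∀ v : V, ∑ k : Fin (d i), (if (e ⟨i, k⟩).1.1 = v then (1 : ZMod 2) else 0) =
        if (e.symm (dart v)).1 = i then 1 else 0 := by
      intro v
      have hiff : ∀ k : Fin (d i), (e ⟨i, k⟩).1.1 = v ↔ e.symm (dart v) = ⟨i, k⟩ := by
        intro k
        rw [huniq, Equiv.symm_apply_eq]
        exact eq_comm
      simp_rw [hiff]
      generalize e.symm (dart v) = q
      obtain ⟨j, l⟩ := q
      by_cases hji : j = i
      · subst hji
        rw [if_pos rfl, Finset.sum_eq_single l]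
        · rw [if_pos rfl]
        · intro k _ hk
          rw [if_neg]
          intro h
          apply hk
          have := (Sigma.mk.inj_iff.mp h).2
          exact (eq_of_heq this).symm
        · intro h
          exact absurd (Finset.mem_univ _) h
      · rw [if_neg hji]
        apply Finset.sum_eq_zero
        intro k _
        rw [if_neg]
        intro h
        exact hji (Sigma.mk.inj_iff.mp h).1
    rw [← hsum x, ← hsum y, ← Finset.sum_add_distrib]
    have hd : (d i : ZMod 2) = ∑ k : Fin (d i), (1 : ZMod 2) := by simp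
    rw [hd]
    have h2 : ∀ k : Fin (d i), (1 : ZMod 2) =
        ((if (e ⟨i, k⟩).1.1 = x then (1 : ZMod 2) else 0) +
          (if (e ⟨i, k⟩).1.1 = y then 1 else 0)) + g k := by
      intro k
      show (1 : ZMod 2) = ((if (e ⟨i, k⟩).1.1 = x then (1 : ZMod 2) else 0) +
          (if (e ⟨i, k⟩).1.1 = y then 1 else 0)) +
          (if (e ⟨i, k⟩).1.1 = x ∨ (e ⟨i, k⟩).1.1 = y then 0 else 1)
      have hne := hxy.ne
      by_cases h1 : (e ⟨i, k⟩).1.1 = x
      · have h2 : (e ⟨i, k⟩).1.1 ≠ y := fun h => hne (h1.symm.trans h)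
        rw [if_pos h1, if_neg h2, if_pos (Or.inl h1)]
        ring
      · by_cases h2 : (e ⟨i, k⟩).1.1 = y
        · rw [if_neg h1, if_pos h2, if_pos (Or.inr h2)]
          ring
        · rw [if_neg h1, if_neg h2, if_neg (by tauto)]
          ring
    rw [Finset.sum_congr rfl (fun k _ => h2 k), Finset.sum_add_distrib, hg0, add_zero]
  -- different components
  have hdiff : ∀ x y, G.Adj x y → ¬ W.Adj x y →
      (e.symm (dart x)).1 ≠ (e.symm (dart y)).1 := by
    intro x y hxy hW hsame
    have heven : ∀ i, (d i : ZMod 2) = 0 := by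
      intro i
      rw [hpar x y hxy hW i, hsame]
      split_ifs <;> decide
    apply hM.2.2.1
    let α : MDart G W → ZMod 2 := fun s => (((e.symm s).2 : ℕ) : ZMod 2)
    have hα : ∀ s, α ((e.symm.trans ((rotAll d).trans e)) s) ≠ α s := by
      intro s
      obtain ⟨q, rfl⟩ := e.surjective s
      rw [hstep]
      show ((((e.symm (e (rotAll d q))).2 : ℕ)) : ZMod 2) ≠ (((e.symm (e q)).2 : ℕ) : ZMod 2)
      rw [Equiv.symm_apply_apply, Equiv.symm_apply_apply]
      obtain ⟨i, k⟩ := q
      show (((finRotate (d i) k : Fin (d i)) : ℕ) : ZMod 2) ≠ ((k : ℕ) : ZMod 2)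
      rw [Enum.rot_val, natMod_cast (heven i)]
      push_cast
      intro h
      have : (1 : ZMod 2) = 0 := by
        rwa [add_eq_left] at h
      exact absurd this (by decide)
    refine graphHalf2 V G W hCP _ hrot (ZMod 2) α hα ?_
    intro s
    exact two_labels _ _ _ _ (hα s) (hα (rev s))
  have hodd : ∀ w : V, (d (e.symm (dart w)).1 : ZMod 2) = 1 := by
    intro w
    obtain ⟨m, hm1, hm2⟩ := exists_partner hM w
    rw [hpar w m hm1 hm2, if_pos rfl, if_neg (hdiff w m hm1 hm2).symm, add_zero]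
  have hreach : ∀ v w : V, (e.symm (dart v)).1 = (e.symm (dart w)).1 ↔ W.Reachable v w := by
    intro v w
    rw [hcomp, hdart, hdart]
  refine ⟨hCP, hall, ?_, ?_⟩
  · have hne : Nonempty V := by
      by_contra hne
      rw [not_nonempty_iff] at hne
      apply hM.2.2.1
      exact ⟨[], by simp, fun x => (hne.false x).elim, fun x => (hne.false x).elim⟩
    obtain ⟨v⟩ := hne
    obtain ⟨m, hm1, hm2⟩ := exists_partner hM v
    refine ⟨v, m, ?_, ?_⟩
    · rw [← hreach]
      exact hdiff v m hm1 hm2
    · intro w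
      rw [← hreach, ← hreach]
      by_contra hcon
      rw [not_or] at hcon
      have := hpar v m hm1 hm2 (e.symm (dart w)).1
      rw [hodd w, if_neg hcon.1, if_neg hcon.2] at this
      exact absurd this (by decide)
  · intro x y hxy hW
    rw [← hreach]
    exact hdiff x y hxy hW

end Pool.Agent.FC
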